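import Pool.Agent.Helper53.KC.Goals

namespace Pool.Agent.Helper93.KC

open Finset Pool.Agent.Helper53.KC

theorem sep : SepStmt := by
  intro n r a j W hW hWc hr
  obtain ⟨X', hX', cX⟩ := Finset.exists_subset_card_eq hW
  obtain ⟨Y', hY', cY⟩ := Finset.exists_subset_card_eq hWc
  have hYW : ∀ x ∈ Y', x ∉ W := fun x hx => Finset.mem_compl.1 (hY' hx)
  have hd : Disjoint X' Y' := by
    rw [Finset.disjoint_left]
    intro x hx hy
    exact hYW x hy (hX' hx)
  have hc : (univ \ (X' ∪ Y')).card = n - (j + 2) - (j + 2) := by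
    rw [Finset.card_sdiff_of_subset (Finset.subset_univ _), Finset.card_union_of_disjoint hd,
      cX, cY, Finset.card_univ, Fintype.card_fin]
    omega
  have h0 : (n - (j + 2) - (j + 2)).choose (r - (j + 2)) =
      ((univ \ (X' ∪ Y')).powersetCard (r - (j + 2))).card := by
    rw [Finset.card_powersetCard, hc]
  rw [h0]
  apply Finset.card_le_card_of_surjOn (fun X => X \ (X' ∪ Y'))
  intro Q hQ
  rw [Finset.mem_coe, Finset.mem_powersetCard] at hQ
  obtain ⟨hQ1, hQ2⟩ := hQ
  have hQX : ∀ x ∈ Q, x ∉ X' ∧ x ∉ Y' := by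
    intro x hx
    have := hQ1 hx
    simp only [Finset.mem_sdiff, Finset.mem_univ, Finset.mem_union, true_and, not_or] at this
    exact this
  have dX : Disjoint Q X' := Finset.disjoint_left.2 fun x hx hy => (hQX x hx).1 hy
  have dY : Disjoint Q Y' := Finset.disjoint_left.2 fun x hx hy => (hQX x hx).2 hy
  by_cases hq : (Q ∩ W).card + 1 < a
  · refine ⟨Q ∪ Y', ?_, ?_⟩
    · have h1 : (Q ∪ Y') ∩ W = Q ∩ W := by
        ext x
        simp only [Finset.mem_inter, Finset.mem_union]
        constructor
        · rintro ⟨h | h, h'⟩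
          · exact ⟨h, h'⟩
          · exact absurd h' (hYW x h)
        · rintro ⟨h, h'⟩
          exact ⟨Or.inl h, h'⟩
      simp only [Finset.coe_filter, Set.mem_ofPred_eq]
      refine ⟨?_, ?_⟩
      · unfold V
        rw [Finset.mem_powersetCard]
        refine ⟨Finset.subset_univ _, ?_⟩
        rw [Finset.card_union_of_disjoint dY, hQ2, cY]
        omega
      · rw [h1]
        exact Or.inl hq
    · ext x
      simp only [Finset.mem_sdiff, Finset.mem_union]
      constructor
      · rintro ⟨h | h, h'⟩
        · exact h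
        · exact absurd (Or.inr h) h'
      · intro h
        exact ⟨Or.inl h, fun h' => h'.elim (hQX x h).1 (hQX x h).2⟩
  · refine ⟨Q ∪ X', ?_, ?_⟩
    · have h1 : (Q ∪ X') ∩ W = (Q ∩ W) ∪ X' := by
        ext x
        simp only [Finset.mem_inter, Finset.mem_union]
        constructor
        · rintro ⟨h | h, h'⟩
          · exact Or.inl ⟨h, h'⟩
          · exact Or.inr h
        · rintro (⟨h, h'⟩ | h)
          · exact ⟨Or.inl h, h'⟩
          · exact ⟨Or.inr h, hX' h⟩
      have d' : Disjoint (Q ∩ W) X' := dX.mono_left Finset.inter_subset_left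
      simp only [Finset.coe_filter, Set.mem_ofPred_eq]
      refine ⟨?_, ?_⟩
      · unfold V
        rw [Finset.mem_powersetCard]
        refine ⟨Finset.subset_univ _, ?_⟩
        rw [Finset.card_union_of_disjoint dX, hQ2, cX]
        omega
      · rw [h1, Finset.card_union_of_disjoint d', cX]
        right
        omega
    · ext x
      simp only [Finset.mem_sdiff, Finset.mem_union]
      constructor
      · rintro ⟨h | h, h'⟩
        · exact h
        · exact absurd (Or.inl h) h'
      · intro h
        exact ⟨Or.inl h, fun h' => h'.elim (hQX x h).1 (hQX x h).2⟩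

end Pool.Agent.Helper93.KC
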